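import Pool.Agent.Results.MP_a41896_nt.AlmostAllHypersurfaces
import Pool.Agent.V35.WT

/-!
# Vojta's inequality for the root stacks along all hypersurfaces of windows around almost every direction

`F = (F 0, …, F (r - 1))` is a tuple of forms of degrees `d i` in `n + 1` variables with integer coefficients, `|F|` the
largest absolute value of a coefficient and `N = ∑ (n + d i choose n)` the number of the coefficients. Let `v_k ≥ 1` be a
sequence with exponent of convergence at most `τ` (`0` for `v_k = x ^ k`, `1 / a` for `v_k = (k + 1) ^ a`). Let `κ ≥ 0`,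
`θ ≥ 1`, `δ > 0` with `κ + (θ - 1) ∑ d i < 1 / 2`. There is `η > 0` such that for all `α ∈ ℝ ^ N` outside a set of Hausdorff
dimension at most `(N - η + τ) / (1 - ω)`, which is a null set if `ω < (η - τ) / N`, and all large `k`, for ALL tuples `F`
with `|F - α v_k| ≤ v_k ^ ω`, Vojta's inequality with truncated counting function holds, with constant `0`, for all integral
points of height at most `|F| ^ θ` of all root stacks of `Pⁿ` along the hypersurfaces `F i = 0`, for all orders, all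
boundary divisors and all sets `S` of excluded primes with `∏_{p ∈ S} p ≤ |F| ^ κ`.
-/

set_option autoImplicit false

open MeasureTheory

namespace Pool.Agent.Results.MP_a41896_nt.WindowsOfHypersurfaces

open Pool.Agent.V35.WM Pool.Agent.V35.WT AlmostAllHypersurfaces

/-- the vector of the coefficients of the `F i` at the monomials of degree `d i` (`Idx n d` is the set of the exponents of
the monomials of degree `d` in `n + 1` variables) -/
noncomputable def coeffs {n r : ℕ} (d : Fin r → ℕ) (F : Fin r → MvPolynomial (Fin (n + 1)) ℤ) :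
    (Σ i : Fin r, Pool.Agent.TH390.Tw.Idx n (d i)) → ℝ :=
  fun p => (((F p.1).coeff p.2.1 : ℤ) : ℝ)

/-- Vojta's inequality fails for some set `S` of primes with `∏_{p ∈ S} p ≤ |F| ^ κ`, some orders `e i`, some boundary `J`
and some integral point of height at most `|F| ^ θ`; `|F|` is the largest absolute value of a coefficient -/
def Fails {n r : ℕ} (d : Fin r → ℕ) (κ θ δ : ℝ) (F : Fin r → MvPolynomial (Fin (n + 1)) ℤ) : Prop :=
  ∃ S : Finset ℕ, (∀ p ∈ S, p.Prime) ∧ ∏ p ∈ S, (p : ℝ) ≤ ‖coeffs d F‖ ^ κ ∧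
    ∃ (J : Finset (Fin r)) (e : Fin r → ℕ), (∀ i, 1 ≤ e i) ∧
      ∃ x : Fin (n + 1) → ℤ, (∀ j, |(x j : ℝ)| ≤ ‖coeffs d F‖ ^ θ) ∧ Primitive x ∧
        (∀ i ∈ J, MvPolynomial.eval x (F i) ≠ 0) ∧ IsIntegral S J e F x ∧
        truncated S J F x < (canonicalDegree n d e J - δ) * height x

/-- **Theorem.** -/
theorem result (n : ℕ) {r : ℕ} (hr : 0 < r) (d : Fin r → ℕ) (κ θ δ : ℝ) (hκ0 : 0 ≤ κ) (hθ : 1 ≤ θ) (hδ : 0 < δ)
    (hbd : κ + (θ - 1) * ∑ i, (d i : ℝ) < 1 / 2) :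
    (∃ η : ℝ, 0 < η ∧ ∀ (v : ℕ → ℝ) (τ ω : ℝ), (∀ k, 1 ≤ v k) → 0 ≤ τ → ExpLe v τ → ω < 1 →
      ∃ E : Set ((Σ i : Fin r, Pool.Agent.TH390.Tw.Idx n (d i)) → ℝ),
        dimH E ≤ ENNReal.ofReal ((∑ i, ((n + d i).choose n : ℝ) - η + τ) / (1 - ω)) ∧
        (ω < (η - τ) / (∑ i, ((n + d i).choose n : ℝ)) → volume E = 0) ∧
        ∀ α : (Σ i : Fin r, Pool.Agent.TH390.Tw.Idx n (d i)) → ℝ, α ∉ E → ∃ k₀ : ℕ, ∀ k : ℕ, k₀ ≤ k →
          ∀ F : Fin r → MvPolynomial (Fin (n + 1)) ℤ, (∀ i, (F i).IsHomogeneous (d i)) →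
            ‖coeffs d F - v k • α‖ ≤ (v k) ^ ω → ¬ Fails d κ θ δ F) ∧
    (∀ x : ℝ, 1 < x → ExpLe (fun k : ℕ => x ^ k) 0) ∧
    (∀ a : ℝ, 0 < a → ExpLe (fun k : ℕ => ((k : ℝ) + 1) ^ a) (1 / a)) := by
  refine ⟨?_, fun x hx => expLe_geom x hx, fun a ha => expLe_pow a ha⟩
  obtain ⟨η₀, C, hη₀, hmain⟩ := (AlmostAllHypersurfaces.result n d).1 κ θ δ hκ0 hθ hδ (by linarith)
  have hcard : (Fintype.card (Σ i : Fin r, Pool.Agent.TH390.Tw.Idx n (d i)) : ℝ) =
      ∑ i, ((n + d i).choose n : ℝ) := by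
    rw [Fintype.card_sigma]
    push_cast
    exact Finset.sum_congr rfl fun i _ => by rw [Pool.Agent.TH390.Tw.card_Idx]
  haveI hne : Nonempty (Σ i : Fin r, Pool.Agent.TH390.Tw.Idx n (d i)) := by
    have h1 : Nonempty (Pool.Agent.TH390.Tw.Idx n (d ⟨0, hr⟩)) := by
      rw [← Fintype.card_pos_iff, Pool.Agent.TH390.Tw.card_Idx]
      exact Nat.choose_pos (by omega)
    obtain ⟨m⟩ := h1
    exact ⟨⟨⟨0, hr⟩, m⟩⟩
  have hN : (1 : ℝ) ≤ ∑ i, ((n + d i).choose n : ℝ) := by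
    rw [← hcard]
    have : 0 < Fintype.card (Σ i : Fin r, Pool.Agent.TH390.Tw.Idx n (d i)) := Fintype.card_pos
    exact_mod_cast this
  obtain ⟨N, hNdef⟩ : ∃ N, N = ∑ i, ((n + d i).choose n : ℝ) := ⟨_, rfl⟩
  rw [← hNdef] at hN hcard hmain ⊢
  obtain ⟨η, hη⟩ : ∃ η, η = min η₀ 1 := ⟨_, rfl⟩
  have hη0 : 0 < η := by rw [hη]; exact lt_min hη₀ one_pos
  have hη1 : η ≤ 1 := by rw [hη]; exact min_le_right _ _
  have hηη : η ≤ η₀ := by rw [hη]; exact min_le_left _ _
  refine ⟨η, hη0, ?_⟩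
  have hthin : Thin {F : Fin r → MvPolynomial (Fin (n + 1)) ℤ | (∀ i, (F i).IsHomogeneous (d i)) ∧ Fails d κ θ δ F}
      (fun F => (re (fun p : Σ i : Fin r, Pool.Agent.TH390.Tw.Idx n (d i) => (F p.1).coeff p.2.1) :
        (Σ i : Fin r, Pool.Agent.TH390.Tw.Idx n (d i)) → ℝ)) (N - η) := by
    refine thin_of (C := |C|) (by linarith) (fun H => Violating n d κ θ δ H) ?_ ?_
    · intro H hH
      have hH' : (1 : ℝ) ≤ H := by exact_mod_cast hH
      obtain ⟨h1, h2⟩ := hmain H hH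
      refine ⟨h1, h2.trans ?_⟩
      refine (mul_le_mul_of_nonneg_right (le_abs_self C) (by positivity)).trans ?_
      apply mul_le_mul_of_nonneg_left _ (abs_nonneg C)
      exact Real.rpow_le_rpow_of_exponent_le hH' (by linarith)
    · rintro H hH F ⟨hF, S, hS, hQ, J, e, he, x, hx, h1, h2, h3, h4⟩ hn
      have hn' : ‖coeffs d F‖ ≤ (H : ℝ) := hn
      refine ⟨hF, ?_, S, hS, hQ.trans ?_, J, e, he, x, ?_, h1, h2, h3, h4⟩
      · intro i m
        by_cases he : (F i).coeff m = 0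
        · rw [he, abs_zero]
          positivity
        · have hm := Pool.Agent.TH390.Tw.mem_finsuppAntidiag_of_hom (hF i) he
          exact (re_le_iff _ H).1 hn ⟨i, ⟨m, hm⟩⟩
      · exact Real.rpow_le_rpow (norm_nonneg _) hn' hκ0
      · intro j
        exact (hx j).trans (Real.rpow_le_rpow (norm_nonneg _) hn' (by linarith))
  intro v τ ω hv hτ hE hω
  obtain ⟨E, h1, h2, h3⟩ := windows (by linarith) hthin hv hτ hE hω
  refine ⟨E, h1, fun h => h2 ?_, fun α hα => ?_⟩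
  · have hN0 : (0 : ℝ) < N := by linarith
    have h4 : 1 - (N - η + τ) / N = (η - τ) / N := by
      field_simp
      ring
    rw [hcard, h4]
    exact h
  · obtain ⟨k₀, hk⟩ := h3 α hα
    refine ⟨k₀, fun k hk1 F hF hFw hP => ?_⟩
    exact hk k hk1 F hFw ⟨hF, hP⟩

end Pool.Agent.Results.MP_a41896_nt.WindowsOfHypersurfaces
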